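import Mathlib
import Pool.Agent.H632R3.DihFam

open Filter Topology
open Pool.Agent.H632R3.RCG Pool.Agent.H632R3.Dih

namespace Pool.Agent.Results.MP_bb6540_pr.DihedralNilpotent

/-- The conjecture fails for nilpotent groups: for the dihedral groups of order `2 * 2 ^ m` and all
numbers of generators `k → ∞` that are at most a power of `log |G|`, the walk is far from uniform
at time `(1 + ε) t_*`, for every choice of the generators. -/
theorem result :
    (∃ (G : ℕ → Type) (_ : ∀ j, Group (G j)) (_ : ∀ j, Fintype (G j)) (k : ℕ → ℕ),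
      (∀ j, Group.IsNilpotent (G j)) ∧
      Tendsto (fun j => Nat.card (G j)) atTop atTop ∧
      Tendsto (fun j => Real.log (k j)) atTop atTop ∧
      Tendsto (fun j => Real.log (k j) / Real.log (Nat.card (G j))) atTop (𝓝 0) ∧
      Tendsto (fun j => Real.log (Nat.card (Abelianization (G j))) / (k j : ℝ)) atTop (𝓝 0) ∧
      ¬ CutoffWhpAt G k (fun j => tStar (G j) (k j))) ∧
    (∀ (m k : ℕ → ℕ) (C : ℝ), 0 < C → Tendsto k atTop atTop →
      (∀ᶠ j in atTop, (k j : ℝ) ≤ Real.log (Nat.card (DihedralGroup (2 ^ m j))) ^ C) →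
      (∀ j, Group.IsNilpotent (DihedralGroup (2 ^ m j))) ∧
      Tendsto (fun j => Nat.card (DihedralGroup (2 ^ m j))) atTop atTop ∧
      Tendsto (fun j => Real.log (k j) / Real.log (Nat.card (DihedralGroup (2 ^ m j)))) atTop
        (𝓝 0) ∧
      Tendsto (fun j => Real.log (Nat.card (Abelianization (DihedralGroup (2 ^ m j)))) /
        (k j : ℝ)) atTop (𝓝 0) ∧
      (∃ ε : ℝ, 0 < ε ∧ ε < 1 ∧ ∀ δ : ℝ, 0 < δ → ∀ᶠ j in atTop,
        ∀ Z : Fin (k j) → DihedralGroup (2 ^ m j),
          1 - δ ≤ tvDist Z ((1 + ε) * tStar (DihedralGroup (2 ^ m j)) (k j))) ∧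
      ¬ CutoffWhpAt (fun j => DihedralGroup (2 ^ m j)) k
        (fun j => tStar (DihedralGroup (2 ^ m j)) (k j))) := by
  constructor
  · exact ⟨fun j => DihedralGroup (2 ^ j), inferInstance, inferInstance, kk, nilp, card_tendsto,
      kk_log, kk_log_div, ab_tendsto (fun j => 2 ^ j) kk kk_tendsto,
      noCutoff (fun j => 2 ^ j) kk kk_tendsto (by norm_num : (0 : ℝ) < 3) kk_le⟩
  · intro m k C hC hk hkN
    have hkN' : ∀ᶠ j in atTop, (k j : ℝ) ≤ Real.log (2 * ((2 ^ m j : ℕ) : ℝ)) ^ C := by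
      filter_upwards [hkN] with j h1
      rw [card_G] at h1
      push_cast at h1 ⊢
      exact h1
    exact ⟨fun j => nilp (m j), card_tendsto' (fun j => 2 ^ m j) k hk hC hkN',
      log_div_tendsto (fun j => 2 ^ m j) k hk hC hkN', ab_tendsto (fun j => 2 ^ m j) k hk,
      family (fun j => 2 ^ m j) k hk hC hkN', noCutoff (fun j => 2 ^ m j) k hk hC hkN'⟩

end Pool.Agent.Results.MP_bb6540_pr.DihedralNilpotent
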